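import Pool.Agent.H5.EG.Spec2

/-!
# MP_98cfca_co, Q1: core1
-/

set_option autoImplicit false

namespace Pool.Agent.H407.EG.Core1

open Pool.Agent.H5.EG

/-- The lowest terms of a product with a power series with constant term `1`. -/
theorem lead (P Q : PowerSeries ℤ) (hP : PowerSeries.constantCoeff P = 1) (ν : ℕ)
    (h : ∀ k < ν, PowerSeries.coeff k (P * Q) = 0) :
    (∀ k < ν, PowerSeries.coeff k Q = 0) ∧
      PowerSeries.coeff ν Q = PowerSeries.coeff ν (P * Q) := by
  have key : ∀ k, (∀ j < k, PowerSeries.coeff j Q = 0) →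
      PowerSeries.coeff k (P * Q) = PowerSeries.coeff k Q := by
    intro k hk
    rw [PowerSeries.coeff_mul, Finset.sum_eq_single (0, k)]
    · rw [PowerSeries.coeff_zero_eq_constantCoeff_apply, hP, one_mul]
    · rintro ⟨i, j⟩ hij hne
      have hs : i + j = k := Finset.HasAntidiagonal.mem_antidiagonal.1 hij
      have hj : j < k := by
        rcases Nat.lt_or_ge j k with h1 | h1
        · exact h1
        · exfalso
          apply hne
          have h2 : i = 0 := by omega
          have h3 : j = k := by omega
          rw [h2, h3]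
      simp only
      rw [hk j hj, mul_zero]
    · intro h0
      exact absurd (Finset.HasAntidiagonal.mem_antidiagonal.2 (zero_add k)) h0
  have low : ∀ k, k < ν → PowerSeries.coeff k Q = 0 := by
    intro k
    induction k using Nat.strong_induction_on with
    | _ k ih =>
      intro hk
      rw [← key k (fun j hj => ih j hj (hj.trans hk))]
      exact h k hk
  exact ⟨low, (key ν low).symm⟩

/-- The Wronskian is the product of the functions and of `Dl`. -/
theorem wronskian {b : ℕ} (F : Fin b → Fn) :
    (Matrix.of fun i (l : Fin b) => D^[(l : ℕ)] (F i).f).det = (∏ i, (F i).f) * Dl F := by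
  unfold Dl
  rw [← Matrix.det_mul_column]
  congr 1
  ext1 i l
  change D^[(l : ℕ)] (F i).f = (F i).f * G (gg (F i).s) l
  rw [D_iter_eq (F i).eq, mul_comm]

theorem core1 (h1 : S_pivot) (h2 : S_cramer) : S_core1 := by
  intro b X F hind
  obtain ⟨p, -, hpX, hdet, V, hV, hlow, hlead⟩ := h1 b X (fun i => (F i).f) hind
  rw [wronskian F] at hlow hlead
  have hP : PowerSeries.constantCoeff (∏ i, (F i).f) = 1 := by
    rw [map_prod]
    exact Finset.prod_eq_one fun i _ => (F i).f0
  obtain ⟨l1, l2⟩ := lead _ _ hP _ hlow
  set M0 : ℤ := (Matrix.of fun i l => PowerSeries.coeff (p l) (F i).f).det with hM0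
  refine ⟨∑ i, p i, |(M0 : ℝ)|, ?_, ?_, l1, ?_, ?_⟩
  · have := Finset.sum_le_card_nsmul Finset.univ p X (fun i _ => (hpX i).le)
    simpa using this
  · have := Int.one_le_abs hdet
    exact_mod_cast this
  · rw [l2, hlead]
    push_cast
    rw [abs_mul]
    have hV' : (1 : ℝ) ≤ |(V : ℝ)| := by
      have h3 : (1 : ℝ) ≤ (V : ℝ) := by exact_mod_cast hV
      exact h3.trans (le_abs_self _)
    exact le_mul_of_one_le_right (abs_nonneg _) hV'
  · intro W c K hK hrep hfK hWK i
    refine h2 b (Matrix.of fun i l => PowerSeries.coeff (p l) (F i).f)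
      (fun l => PowerSeries.coeff (p l) W) c K ?_ hdet hK ?_ ?_ i
    · intro l
      exact hrep (p l) (hpX l)
    · intro i l
      have := hfK i (p l) (hpX l)
      unfold cf at this
      rw [Complex.norm_intCast] at this
      exact this
    · intro l
      have := hWK (p l) (hpX l)
      unfold cf at this
      rw [Complex.norm_intCast] at this
      exact this

end Pool.Agent.H407.EG.Core1
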